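import Pool.Agent.Helper37.RT.Defs

set_option autoImplicit false

/-! Row T3: the bumps. -/

namespace Pool.Agent.Helper37.RT

open MeasureTheory Set Filter Topology
open scoped ENNReal

/-! ### The tent function -/

theorem t3_tent_nonneg (t : ℝ) : 0 ≤ tent t := le_max_left _ _

theorem t3_tent_le_one (t : ℝ) : tent t ≤ 1 := by
  unfold tent
  have := abs_nonneg (2 * t - 1)
  exact max_le (by norm_num) (by linarith)

theorem t3_tent_continuous : Continuous tent := by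
  unfold tent
  fun_prop

theorem t3_tent_pos {t : ℝ} (h : tent t ≠ 0) : 0 < t ∧ t < 1 := by
  have h0 : 0 < tent t := lt_of_le_of_ne (t3_tent_nonneg t) (Ne.symm h)
  unfold tent at h0
  rcases lt_max_iff.1 h0 with h1 | h1
  · exact absurd h1 (lt_irrefl _)
  · have h2 : |2 * t - 1| < 1 := by linarith
    rw [abs_lt] at h2
    constructor <;> linarith [h2.1, h2.2]

theorem t3_tent_lip (s t : ℝ) : |tent s - tent t| ≤ 2 * |s - t| := by
  unfold tent
  have h1 := abs_max_sub_max_le_abs (1 - |2 * s - 1|) (1 - |2 * t - 1|) 0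
  rw [max_comm _ (0 : ℝ), max_comm _ (0 : ℝ)] at h1
  refine h1.trans ?_
  have h2 : 1 - |2 * s - 1| - (1 - |2 * t - 1|) = |2 * t - 1| - |2 * s - 1| := by ring
  rw [h2]
  refine (abs_abs_sub_abs_le_abs_sub _ _).trans ?_
  have h3 : 2 * t - 1 - (2 * s - 1) = 2 * (t - s) := by ring
  rw [h3, abs_mul, abs_sub_comm t s, abs_two]

theorem t3_tent_low {t : ℝ} (h0 : 0 ≤ t) (h : t ≤ 1 / 2) : tent t = 2 * t := by
  unfold tent
  rw [abs_of_nonpos (by linarith), max_eq_right (by linarith)]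
  ring

theorem t3_tent_high {t : ℝ} (h0 : 1 / 2 ≤ t) (h : t ≤ 1) : tent t = 2 - 2 * t := by
  unfold tent
  rw [abs_of_nonneg (by linarith), max_eq_right (by linarith)]
  ring

theorem t3_tent_sq : ∫ t, tent t ^ 2 = 1 / 3 := by
  have h1 : ∫ t, tent t ^ 2 = ∫ t in Ioc (0 : ℝ) 1, tent t ^ 2 := by
    symm
    apply setIntegral_eq_integral_of_forall_compl_eq_zero
    intro t ht
    have : tent t = 0 := by
      by_contra h
      have := t3_tent_pos h
      exact ht ⟨this.1, this.2.le⟩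
    rw [this]; norm_num
  rw [h1, ← intervalIntegral.integral_of_le zero_le_one]
  have hc : Continuous fun t => tent t ^ 2 := t3_tent_continuous.pow 2
  rw [← intervalIntegral.integral_add_adjacent_intervals (b := 1 / 2)
    (hc.intervalIntegrable _ _) (hc.intervalIntegrable _ _)]
  have h2 : ∫ t in (0 : ℝ)..(1 / 2), tent t ^ 2 = ∫ t in (0 : ℝ)..(1 / 2), 4 * t ^ 2 := by
    apply intervalIntegral.integral_congr
    intro t ht
    rw [uIcc_of_le (by norm_num)] at ht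
    show tent t ^ 2 = 4 * t ^ 2
    rw [t3_tent_low ht.1 ht.2]; ring
  have h3 : ∫ t in (1 / 2 : ℝ)..1, tent t ^ 2 = ∫ t in (1 / 2 : ℝ)..1, (4 - 8 * t + 4 * t ^ 2) := by
    apply intervalIntegral.integral_congr
    intro t ht
    rw [uIcc_of_le (by norm_num)] at ht
    show tent t ^ 2 = 4 - 8 * t + 4 * t ^ 2
    rw [t3_tent_high ht.1 ht.2]; ring
  rw [h2, h3]
  have h4 : ∫ t in (0 : ℝ)..(1 / 2), 4 * t ^ 2 = 4 * ((1 / 2) ^ 3 / 3) := by
    rw [intervalIntegral.integral_const_mul, integral_pow]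
    norm_num
  have h5 : ∫ t in (1 / 2 : ℝ)..1, (4 - 8 * t + 4 * t ^ 2) = 1 / 6 := by
    rw [intervalIntegral.integral_add (Continuous.intervalIntegrable (by fun_prop) _ _)
      (Continuous.intervalIntegrable (by fun_prop) _ _),
      intervalIntegral.integral_sub (Continuous.intervalIntegrable (by fun_prop) _ _)
      (Continuous.intervalIntegrable (by fun_prop) _ _),
      intervalIntegral.integral_const_mul, intervalIntegral.integral_const_mul,
      intervalIntegral.integral_const, integral_pow, integral_id]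
    norm_num
  rw [h4, h5]
  norm_num

theorem t3_tent_sq_int {N : ℝ} (hN : 0 < N) (c : ℝ) : ∫ t, tent (N * t - c) ^ 2 = 1 / (3 * N) := by
  have h1 := MeasureTheory.Measure.integral_comp_mul_left (fun t => tent (t - c) ^ 2) N
  rw [h1, integral_sub_right_eq_self (fun t => tent t ^ 2), t3_tent_sq, smul_eq_mul,
    abs_of_pos (inv_pos.2 hN)]
  field_simp

/-! ### The bumps -/

theorem psi_nonneg (k : ℕ) (c : ℕ × ℕ) (y : ℝ × ℝ) : 0 ≤ psi k c y :=
  mul_nonneg (t3_tent_nonneg _) (t3_tent_nonneg _)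

theorem psi_le_one (k : ℕ) (c : ℕ × ℕ) (y : ℝ × ℝ) : psi k c y ≤ 1 :=
  mul_le_one₀ (t3_tent_le_one _) (t3_tent_nonneg _) (t3_tent_le_one _)

theorem psi_continuous (k : ℕ) (c : ℕ × ℕ) : Continuous (psi k c) := by
  unfold psi
  exact (t3_tent_continuous.comp (by fun_prop)).mul (t3_tent_continuous.comp (by fun_prop))

theorem t3_psi_pos {k : ℕ} {c : ℕ × ℕ} {y : ℝ × ℝ} (h : psi k c y ≠ 0) :
    ((c.1 : ℝ) < 2 ^ k * y.1 ∧ 2 ^ k * y.1 < c.1 + 1) ∧
      ((c.2 : ℝ) < 2 ^ k * y.2 ∧ 2 ^ k * y.2 < c.2 + 1) := by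
  unfold psi at h
  have h1 := t3_tent_pos (left_ne_zero_of_mul h)
  have h2 := t3_tent_pos (right_ne_zero_of_mul h)
  exact ⟨⟨by linarith [h1.1], by linarith [h1.2]⟩, ⟨by linarith [h2.1], by linarith [h2.2]⟩⟩

/-- the bump is supported in its cell -/
theorem psi_support {k : ℕ} {c : ℕ × ℕ} {y : ℝ × ℝ} (h : psi k c y ≠ 0) :
    (⌊2 ^ k * y.1⌋₊, ⌊2 ^ k * y.2⌋₊) = c ∧ 0 ≤ y.1 ∧ 0 ≤ y.2 := by
  obtain ⟨⟨h1, h2⟩, h3, h4⟩ := t3_psi_pos h
  have hk : (0 : ℝ) < 2 ^ k := by positivity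
  have a1 : (0 : ℝ) < 2 ^ k * y.1 := lt_of_le_of_lt (Nat.cast_nonneg _) h1
  have a2 : (0 : ℝ) < 2 ^ k * y.2 := lt_of_le_of_lt (Nat.cast_nonneg _) h3
  refine ⟨Prod.ext ?_ ?_, (pos_of_mul_pos_right a1 hk.le).le, (pos_of_mul_pos_right a2 hk.le).le⟩
  · exact (Nat.floor_eq_iff a1.le).2 ⟨h1.le, h2⟩
  · exact (Nat.floor_eq_iff a2.le).2 ⟨h3.le, h4⟩

theorem psi_off {k : ℕ} {c : ℕ × ℕ} (hc : c ∈ cells k) {y : ℝ × ℝ} (hy : y ∉ BB) :
    psi k c y = 0 := by
  by_contra h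
  obtain ⟨⟨h1, h2⟩, h3, h4⟩ := t3_psi_pos h
  obtain ⟨_, h5, h6⟩ := psi_support h
  unfold cells at hc
  rw [Finset.mem_product, Finset.mem_range, Finset.mem_range] at hc
  have hk : (0 : ℝ) < 2 ^ k := by positivity
  have b1 : (c.1 : ℝ) + 1 ≤ 2 ^ k := by exact_mod_cast hc.1
  have b2 : (c.2 : ℝ) + 1 ≤ 2 ^ k := by exact_mod_cast hc.2
  apply hy
  refine ⟨⟨h5, ?_⟩, ⟨h6, ?_⟩⟩
  · have : (2 : ℝ) ^ k * y.1 < 2 ^ k * 1 := by linarith
    exact lt_of_mul_lt_mul_left this hk.le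
  · have : (2 : ℝ) ^ k * y.2 < 2 ^ k * 1 := by linarith
    exact lt_of_mul_lt_mul_left this hk.le

theorem psi_disj {k : ℕ} {c c' : ℕ × ℕ} (h : c ≠ c') (y : ℝ × ℝ) : psi k c y * psi k c' y = 0 := by
  by_contra h1
  have h2 := psi_support (left_ne_zero_of_mul h1)
  have h3 := psi_support (right_ne_zero_of_mul h1)
  exact h (h2.1.symm.trans h3.1)

theorem psi_sq_int {k : ℕ} {c : ℕ × ℕ} (hc : c ∈ cells k) :
    ∫ y in BB, psi k c y ^ 2 = 1 / 9 * (1 / 4 : ℝ) ^ k := by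
  rw [setIntegral_eq_integral_of_forall_compl_eq_zero
    (fun y hy => by rw [psi_off hc hy]; norm_num)]
  have h1 : ∀ y : ℝ × ℝ, psi k c y ^ 2 =
      (fun t : ℝ => tent (2 ^ k * t - c.1) ^ 2) y.1 * (fun t : ℝ => tent (2 ^ k * t - c.2) ^ 2) y.2 :=
    fun y => by
      unfold psi
      ring
  have h3 : ∫ y : ℝ × ℝ, psi k c y ^ 2 =
      (∫ t : ℝ, tent (2 ^ k * t - c.1) ^ 2) * ∫ t : ℝ, tent (2 ^ k * t - c.2) ^ 2 := by
    rw [Measure.volume_eq_prod, ← integral_prod_mul (fun t : ℝ => tent (2 ^ k * t - c.1) ^ 2)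
      (fun t : ℝ => tent (2 ^ k * t - c.2) ^ 2)]
    exact integral_congr_ae (Filter.Eventually.of_forall h1)
  rw [h3, t3_tent_sq_int (by positivity), t3_tent_sq_int (by positivity), one_div_pow]
  have h2 : (4 : ℝ) ^ k = 2 ^ k * 2 ^ k := by
    rw [← mul_pow]; norm_num
  rw [h2]
  field_simp
  norm_num

theorem t3_psi_lip (k : ℕ) (c : ℕ × ℕ) (y y' : ℝ × ℝ) :
    |psi k c y - psi k c y'| ≤ 4 * 2 ^ k * dist y y' := by
  have hk : (0 : ℝ) < 2 ^ k := by positivity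
  have d1 : |y.1 - y'.1| ≤ dist y y' := by
    rw [← Real.dist_eq]; exact le_max_left _ _
  have d2 : |y.2 - y'.2| ≤ dist y y' := by
    rw [← Real.dist_eq]; exact le_max_right _ _
  have h1 : |tent (2 ^ k * y.1 - c.1) - tent (2 ^ k * y'.1 - c.1)| ≤ 2 * (2 ^ k * dist y y') := by
    refine (t3_tent_lip _ _).trans ?_
    have : 2 ^ k * y.1 - c.1 - (2 ^ k * y'.1 - c.1) = 2 ^ k * (y.1 - y'.1) := by ring
    rw [this, abs_mul, abs_of_pos hk]
    gcongr
  have h2 : |tent (2 ^ k * y.2 - c.2) - tent (2 ^ k * y'.2 - c.2)| ≤ 2 * (2 ^ k * dist y y') := by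
    refine (t3_tent_lip _ _).trans ?_
    have : 2 ^ k * y.2 - c.2 - (2 ^ k * y'.2 - c.2) = 2 ^ k * (y.2 - y'.2) := by ring
    rw [this, abs_mul, abs_of_pos hk]
    gcongr
  unfold psi
  set a := tent (2 ^ k * y.1 - c.1)
  set a' := tent (2 ^ k * y'.1 - c.1)
  set b := tent (2 ^ k * y.2 - c.2)
  set b' := tent (2 ^ k * y'.2 - c.2)
  have e : a * b - a' * b' = (a - a') * b + a' * (b - b') := by ring
  have hb0 : 0 ≤ b := t3_tent_nonneg _
  have hb1 : b ≤ 1 := t3_tent_le_one _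
  have ha0 : 0 ≤ a' := t3_tent_nonneg _
  have ha1 : a' ≤ 1 := t3_tent_le_one _
  calc |a * b - a' * b'| = |(a - a') * b + a' * (b - b')| := by rw [e]
    _ ≤ |(a - a') * b| + |a' * (b - b')| := abs_add_le _ _
    _ = |a - a'| * b + a' * |b - b'| := by
        rw [abs_mul, abs_mul, abs_of_nonneg hb0, abs_of_nonneg ha0]
    _ ≤ |a - a'| * 1 + 1 * |b - b'| := by gcongr
    _ ≤ 4 * 2 ^ k * dist y y' := by linarith

/-! ### The corrections -/

theorem corr_off (s : ℕ → ℕ × ℕ → ℝ) (K n : ℕ) {y : ℝ × ℝ} (hy : y ∉ BB) : corr s K n y = 0 := by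
  unfold corr
  refine Finset.sum_eq_zero fun k _ => Finset.sum_eq_zero fun c hc => ?_
  rw [psi_off hc hy, mul_zero]

theorem corr_continuous (s : ℕ → ℕ × ℕ → ℝ) (K n : ℕ) : Continuous (corr s K n) := by
  unfold corr
  refine continuous_finsetSum _ fun k _ => continuous_finsetSum _ fun c _ => ?_
  exact continuous_const.mul (psi_continuous k c)

theorem t3_level_lip {s : ℕ × ℕ → ℝ} {A : ℝ} (hA : 0 ≤ A) (hs : ∀ c, |s c| ≤ A) (k : ℕ)
    (y y' : ℝ × ℝ) :
    |∑ c ∈ cells k, s c * psi k c y - ∑ c ∈ cells k, s c * psi k c y'| ≤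
      8 * A * 2 ^ k * dist y y' := by
  classical
  set c₀ : ℕ × ℕ := (⌊2 ^ k * y.1⌋₊, ⌊2 ^ k * y.2⌋₊) with hc₀
  set c₁ : ℕ × ℕ := (⌊2 ^ k * y'.1⌋₊, ⌊2 ^ k * y'.2⌋₊) with hc₁
  set D : ℝ := A * (4 * 2 ^ k * dist y y') with hD
  have hD0 : 0 ≤ D := by positivity
  have hterm : ∀ c : ℕ × ℕ, |s c * psi k c y - s c * psi k c y'| ≤
      (if c = c₀ then D else 0) + (if c = c₁ then D else 0) := by
    intro c
    have h1 : |s c * psi k c y - s c * psi k c y'| ≤ D := by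
      rw [← mul_sub, abs_mul]
      exact mul_le_mul (hs c) (t3_psi_lip k c y y') (abs_nonneg _) hA
    by_cases h2 : psi k c y = 0
    · by_cases h3 : psi k c y' = 0
      · rw [h2, h3]
        simp only [mul_zero, sub_zero, abs_zero]
        split_ifs <;> linarith
      · have : c = c₁ := (psi_support h3).1.symm
        rw [if_pos this]
        split_ifs <;> linarith
    · have : c = c₀ := (psi_support h2).1.symm
      rw [if_pos this]
      split_ifs <;> linarith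
  rw [← Finset.sum_sub_distrib]
  refine (Finset.abs_sum_le_sum_abs _ _).trans ((Finset.sum_le_sum fun c _ => hterm c).trans ?_)
  rw [Finset.sum_add_distrib, Finset.sum_ite_eq', Finset.sum_ite_eq']
  have h4 : (if c₀ ∈ cells k then D else 0) ≤ D := by split_ifs <;> linarith
  have h5 : (if c₁ ∈ cells k then D else 0) ≤ D := by split_ifs <;> linarith
  calc _ ≤ D + D := add_le_add h4 h5
    _ = 8 * A * 2 ^ k * dist y y' := by rw [hD]; ring

theorem t3_geom (K n : ℕ) : ∑ k ∈ Finset.Ico K (K + n), (2 : ℝ) ^ k = 2 ^ (K + n) - 2 ^ K := by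
  induction n with
  | zero => simp
  | succ n ih =>
    rw [← add_assoc, Finset.sum_Ico_succ_top (by omega), ih, pow_succ]
    ring

theorem corr_lip {s : ℕ → ℕ × ℕ → ℝ} {A : ℝ} (hA : 0 ≤ A) (hs : ∀ k c, |s k c| ≤ A) (K n : ℕ)
    (y y' : ℝ × ℝ) : |corr s K n y - corr s K n y'| ≤ 8 * A * 2 ^ (K + n) * dist y y' := by
  unfold corr
  rw [← Finset.sum_sub_distrib]
  refine (Finset.abs_sum_le_sum_abs _ _).trans ((Finset.sum_le_sum fun k _ =>
    t3_level_lip hA (hs k) k y y').trans ?_)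
  have h1 : ∀ k : ℕ, 8 * A * 2 ^ k * dist y y' = 8 * A * dist y y' * 2 ^ k := fun k => by ring
  simp_rw [h1]
  rw [← Finset.mul_sum, t3_geom]
  have h2 : 0 ≤ 8 * A * dist y y' := by positivity
  have h3 : (0 : ℝ) ≤ 2 ^ K := by positivity
  nlinarith

end Pool.Agent.Helper37.RT
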